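import Pool.Agent.Lib.MP_d55432_al.SIX.Iface

/-!
# The invariants of so(6) in terms of those of sl(4)
-/

namespace Pool.Agent.Lib.MP_d55432_al.SIX.H57

open Matrix LieAlgebra

attribute [local instance 100] LieRing.ofAssociativeRing

section sig

variable {K : Type*} [Field K]

theorem trace_L4 (X : L4 K) : X.1.trace = 0 := (mem_sl X.1).1 X.2

theorem trace_sq [CharZero K] {Θ : L6 K ≃ₗ⁅K⁆ L4 K} {κ : K} (h : IsTheta Θ κ) (x : L6 K) :
    ((Θ x).1 * (Θ x).1).trace = -s1 x.1 := by
  rw [h.2 x, trace_add, trace_smul, trace_smul, trace_L4, trace_one, Fintype.card_fin]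
  simp only [smul_eq_mul, mul_zero, add_zero]
  push_cast
  field_simp

theorem trace_mul [CharZero K] {Θ : L6 K ≃ₗ⁅K⁆ L4 K} {κ : K} (h : IsTheta Θ κ) (x y : L6 K) :
    2 * ((Θ x).1 * (Θ y).1).trace = -(s1 (x.1 + y.1) - s1 x.1 - s1 y.1) := by
  have h1 := trace_sq h (x + y)
  have h2 : (Θ (x + y)).1 = (Θ x).1 + (Θ y).1 := by
    rw [map_add]
    rfl
  have h3 : (x + y).1 = x.1 + y.1 := rfl
  rw [h2, h3, Matrix.add_mul, Matrix.mul_add, Matrix.mul_add, trace_add, trace_add, trace_add,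
    trace_sq h, trace_sq h, Matrix.trace_mul_comm (Θ y).1] at h1
  linear_combination h1

theorem s1_add_sharp (x : M6 K) : s1 (x + sharpM x) - s1 x - s1 (sharpM x) = 6 * Pf x := by
  simp [s1, sharpM, Pf, pf4]
  ring

end sig

/-- SIG -/
theorem sig (K : Type*) [Field K] [CharZero K] : SIG_S K := by
  intro Θ κ h x
  refine ⟨trace_sq h x, ?_, ?_⟩
  · have h1 := trace_mul h (sharp x) x
    have h2 : (sharp x).1 = sharpM x.1 := rfl
    have h3 := s1_add_sharp x.1
    rw [h2, add_comm (sharpM x.1)] at h1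
    rw [h.2 x, Matrix.add_mul, trace_add, Matrix.smul_mul, Matrix.smul_mul, Matrix.one_mul,
      trace_smul, trace_smul, trace_L4]
    simp only [smul_eq_mul, mul_zero, zero_add]
    have h4 : (2 : K) * (((Θ (sharp x)).1 * (Θ x).1).trace - (-3 * Pf x.1)) = 0 := by
      linear_combination h1 - h3
    have h5 := (mul_eq_zero.1 h4).resolve_left two_ne_zero
    linear_combination κ * h5
  · rw [Matrix.mul_assoc ((Θ x).1 * (Θ x).1), h.2 x, Matrix.add_mul, Matrix.mul_add,
      Matrix.mul_add]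
    simp only [Matrix.smul_mul, Matrix.mul_smul, Matrix.one_mul, Matrix.mul_one, trace_add,
      trace_smul, trace_L4, trace_sq h, trace_one, Fintype.card_fin, smul_eq_mul]
    have h2 : s1 (sharp x).1 = s2 x.1 := rfl
    rw [h2]
    push_cast
    ring

end Pool.Agent.Lib.MP_d55432_al.SIX.H57
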