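import Pool.Agent.Lib.MP_d55432_al.SIX.Iface

/-!
# The Lie algebra so(6) is simple
-/

namespace Pool.Agent.Lib.MP_d55432_al.SIX.H57.Simple

open Matrix LieAlgebra

attribute [local instance 100] LieRing.ofAssociativeRing

variable {K : Type*} [Field K]

/-- the elements `e_ac` -/
def eL (a c : Fin 6) : L6 K := wedge (Pi.single a 1) (Pi.single c 1)

theorem eL_apply (a c i j : Fin 6) : (eL a c : L6 K).1 i j =
    (if i = a then 1 else 0) * (if j = c then 1 else 0) -
      (if i = c then 1 else 0) * (if j = a then 1 else 0) := by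
  simp [eL, wedge, wedgeM, vecMulVec_apply, Pi.single_apply]

theorem eL_mul (a c i j : Fin 6) (x : M6 K) : ((eL a c : L6 K).1 * x) i j =
    (if i = a then x c j else 0) - (if i = c then x a j else 0) := by
  rw [Matrix.mul_apply]
  simp only [eL_apply, sub_mul, Finset.sum_sub_distrib]
  simp

theorem mul_eL (a c i j : Fin 6) (x : M6 K) : (x * (eL a c : L6 K).1) i j =
    (if j = c then x i a else 0) - (if j = a then x i c else 0) := by
  rw [Matrix.mul_apply]
  simp only [eL_apply, mul_sub, Finset.sum_sub_distrib]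
  simp

theorem coe_lie (x y : L6 K) : (⁅x, y⁆ : L6 K).1 = x.1 * y.1 - y.1 * x.1 := rfl

theorem skew_of_mem (x : L6 K) (i j : Fin 6) : x.1 j i = -x.1 i j := by
  have h := (LieAlgebra.Orthogonal.mem_so _ _ _).1 x.2
  exact congrFun (congrFun h i) j

theorem diag [CharZero K] (x : L6 K) (i : Fin 6) : x.1 i i = 0 := by
  have h3 : (2 : K) * x.1 i i = 0 := by linear_combination skew_of_mem x i i
  exact (mul_eq_zero.1 h3).resolve_left two_ne_zero

/-- the operator `- ad (e_ac) ^ 2` -/
def pr (a c : Fin 6) (x : L6 K) : L6 K := -⁅(eL a c : L6 K), ⁅(eL a c : L6 K), x⁆⁆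

theorem pr_apply [CharZero K] {a c : Fin 6} (hac : a ≠ c) (x : L6 K) (i j : Fin 6) :
    (pr a c x).1 i j = if (i = a ∨ i = c) ↔ (j = a ∨ j = c) then 0 else x.1 i j := by
  have h0 : (pr a c x).1 = -((eL a c).1 * ((eL a c).1 * x.1 - x.1 * (eL a c).1) -
      ((eL a c).1 * x.1 - x.1 * (eL a c).1) * (eL a c).1) := rfl
  have h1 : ∀ i j, ((eL a c : L6 K).1 * x.1 - x.1 * (eL a c : L6 K).1 : M6 K) i j =
      (if i = a then x.1 c j else 0) - (if i = c then x.1 a j else 0) -
      ((if j = c then x.1 i a else 0) - (if j = a then x.1 i c else 0)) := by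
    intro i j
    rw [Matrix.sub_apply, eL_mul, mul_eL]
  rw [h0, Matrix.neg_apply, Matrix.sub_apply, eL_mul, mul_eL, h1, h1, h1, h1]
  have ha := diag x a
  have hc := diag x c
  have hs := skew_of_mem x a c
  have hca : c ≠ a := hac.symm
  by_cases hia : i = a
  · subst hia
    by_cases hja : j = i
    · subst hja
      simp [hac, hca, ha, hc]
      try ring
    · by_cases hjc : j = c
      · subst hjc
        simp [hac, hca]
        linear_combination 2 * hs
      · simp [hac, hca, hja, hjc, ha, hc]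
  · by_cases hic : i = c
    · subst hic
      by_cases hja : j = a
      · subst hja
        simp [hac, hca]
        linear_combination 2 * hs
      · by_cases hjc : j = i
        · subst hjc
          simp [hac, hca, ha, hc]
          try ring
        · simp [hac, hca, hja, hjc, ha, hc]
    · by_cases hja : j = a
      · subst hja
        simp [hac, hca, hia, hic, ha, hc]
      · by_cases hjc : j = c
        · subst hjc
          simp [hac, hca, hia, hic, ha, hc]
        · simp [hac, hca, hia, hic, hja, hjc]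

theorem lie_e {a b c : Fin 6} (hab : a ≠ b) (hbc : b ≠ c) (hac : a ≠ c) :
    ⁅(eL a b : L6 K), (eL b c : L6 K)⁆ = eL a c := by
  apply Subtype.ext
  rw [coe_lie]
  ext i j
  rw [Matrix.sub_apply, eL_mul, mul_eL, eL_apply, eL_apply, eL_apply, eL_apply, eL_apply]
  by_cases hia : i = a <;> by_cases hib : i = b <;> by_cases hic : i = c <;>
    by_cases hja : j = a <;> by_cases hjb : j = b <;> by_cases hjc : j = c <;>
    simp_all

theorem e_symm (a c : Fin 6) : (eL a c : L6 K) = -eL c a := by
  apply Subtype.ext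
  ext i j
  change (eL a c : L6 K).1 i j = -(eL c a : L6 K).1 i j
  rw [eL_apply, eL_apply]
  ring

/-- the iterated operator -/
theorem foldr_apply [CharZero K] (a : Fin 6) (l : List (Fin 6)) (hl : ∀ c ∈ l, a ≠ c)
    (x : L6 K) (i j : Fin 6) : (l.foldr (pr a) x).1 i j =
      if ∀ c ∈ l, ¬((i = a ∨ i = c) ↔ (j = a ∨ j = c)) then x.1 i j else 0 := by
  induction l with
  | nil => simp
  | cons c l ih =>
    rw [List.foldr_cons, pr_apply (hl c (by simp)), ih fun d hd => hl d (by simp [hd])]
    simp only [List.mem_cons, forall_eq_or_imp]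
    by_cases h : (i = a ∨ i = c) ↔ (j = a ∨ j = c)
    · rw [if_pos h, if_neg fun h' => h'.1 h]
    · rw [if_neg h]
      simp only [h, not_false_eq_true, true_and]

theorem foldr_mem (I : LieIdeal K (L6 K)) (a : Fin 6) (l : List (Fin 6)) {x : L6 K}
    (hx : x ∈ I) : l.foldr (pr a) x ∈ I := by
  induction l with
  | nil => exact hx
  | cons c l ih =>
    rw [List.foldr_cons, pr]
    exact neg_mem (lie_mem_right K (L6 K) I _ _ (lie_mem_right K (L6 K) I _ _ ih))

theorem pairs : ∀ a b : Fin 6, a ≠ b → ∃ l : List (Fin 6), (∀ c ∈ l, a ≠ c) ∧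
    ∀ i j : Fin 6, (∀ c ∈ l, ¬((i = a ∨ i = c) ↔ (j = a ∨ j = c))) ↔
      ((i = a ∧ j = b) ∨ (i = b ∧ j = a)) := by
  intro a b hab
  refine ⟨(Finset.univ.filter fun c => c ≠ a ∧ c ≠ b).toList, ?_, ?_⟩
  · intro c hc
    rw [Finset.mem_toList, Finset.mem_filter] at hc
    exact fun h => hc.2.1 h.symm
  · intro i j
    simp only [Finset.mem_toList, Finset.mem_filter, Finset.mem_univ, true_and]
    revert a b i j
    decide

theorem e_mem [CharZero K] (I : LieIdeal K (L6 K)) {x : L6 K} (hx : x ∈ I) (hx0 : x ≠ 0) :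
    ∃ a b : Fin 6, a ≠ b ∧ eL a b ∈ I := by
  have h0 : ∃ a b, x.1 a b ≠ 0 := by
    by_contra hcon
    push Not at hcon
    apply hx0
    apply Subtype.ext
    ext i j
    exact hcon i j
  obtain ⟨a, b, hab0⟩ := h0
  have hab : a ≠ b := by
    rintro rfl
    exact hab0 (diag x a)
  refine ⟨a, b, hab, ?_⟩
  obtain ⟨l, hl, hl'⟩ := pairs a b hab
  have h1 := foldr_mem I a l hx
  have h2 : l.foldr (pr a) x = x.1 a b • eL a b := by
    apply Subtype.ext
    ext i j
    rw [foldr_apply a l hl]
    change _ = x.1 a b * (eL a b : L6 K).1 i j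
    rw [eL_apply]
    simp only [hl']
    by_cases h : i = a ∧ j = b
    · obtain ⟨rfl, rfl⟩ := h
      simp [hab]
    · by_cases h' : i = b ∧ j = a
      · obtain ⟨rfl, rfl⟩ := h'
        simp [hab.symm, skew_of_mem x j i]
      · rw [if_neg (not_or.2 ⟨h, h'⟩)]
        by_cases h3 : i = a <;> by_cases h4 : j = b <;> by_cases h5 : i = b <;>
          by_cases h6 : j = a <;> simp_all
  rw [h2] at h1
  have h3 : eL a b = (x.1 a b)⁻¹ • (x.1 a b • (eL a b : L6 K)) := by
    rw [smul_smul, inv_mul_cancel₀ hab0, one_smul]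
  rw [h3]
  exact I.smul_mem _ h1

theorem e_all (I : LieIdeal K (L6 K)) {a b : Fin 6} (hab : a ≠ b) (h : (eL a b : L6 K) ∈ I)
    (c d : Fin 6) (hcd : c ≠ d) : (eL c d : L6 K) ∈ I := by
  have h1 : ∀ d, a ≠ d → (eL a d : L6 K) ∈ I := by
    intro d hd
    by_cases hdb : b = d
    · rw [← hdb]; exact h
    · rw [← lie_e hab hdb hd]
      exact lie_mem_left K (L6 K) I _ _ h
  by_cases hca : c = a
  · subst hca
    exact h1 d hcd
  · have h2 : (eL c a : L6 K) ∈ I := by
      rw [e_symm]
      exact neg_mem (h1 c (Ne.symm hca))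
    by_cases hda : a = d
    · rw [← hda]; exact h2
    · rw [← lie_e hca hda hcd]
      exact lie_mem_left K (L6 K) I _ _ h2

theorem eq_sum [CharZero K] (x : L6 K) : x = ∑ i, ∑ j, (x.1 i j / 2) • (eL i j : L6 K) := by
  apply Subtype.ext
  ext k l
  have h1 : ((∑ i, ∑ j, (x.1 i j / 2) • (eL i j : L6 K) : L6 K)).1 k l =
      ∑ i, ∑ j, (x.1 i j / 2) * (eL i j : L6 K).1 k l := by
    have h2 : ∀ (s : Finset (Fin 6)) (f : Fin 6 → L6 K), (∑ i ∈ s, f i).1 k l =
        ∑ i ∈ s, (f i).1 k l := by
      intro s f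
      induction s using Finset.induction_on with
      | empty => simp
      | insert a s ha ih =>
        rw [Finset.sum_insert ha, Finset.sum_insert ha, ← ih]
        rfl
    rw [h2]
    refine Finset.sum_congr rfl fun i _ => ?_
    rw [h2]
    rfl
  rw [h1]
  simp only [eL_apply, mul_sub, Finset.sum_sub_distrib]
  simp
  linear_combination (1 / 2) * skew_of_mem x l k

end Simple

open Simple in
/-- SIMPLE -/
theorem simple (K : Type*) [Field K] [CharZero K] : SIMPLE_S K where
  eq_bot_or_eq_top I := by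
    by_cases hI : I = ⊥
    · exact Or.inl hI
    · right
      have h0 : ∃ x ∈ I, x ≠ 0 := by
        by_contra hcon
        push Not at hcon
        exact hI ((LieSubmodule.eq_bot_iff I).2 hcon)
      obtain ⟨x, hx, hx0⟩ := h0
      obtain ⟨a, b, hab, h⟩ := e_mem I hx hx0
      rw [eq_top_iff]
      intro y _
      rw [eq_sum y]
      refine sum_mem fun i _ => sum_mem fun j _ => I.smul_mem _ ?_
      by_cases hij : i = j
      · have h0 : (eL i j : L6 K) = 0 := by
          subst hij
          apply Subtype.ext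
          ext k l
          rw [eL_apply]
          change _ = (0 : K)
          ring
        rw [h0]
        exact I.zero_mem
      · exact e_all I hab h i j hij
  non_abelian := by
    intro h
    have h1 := h.trivial (eL 0 1 : L6 K) (eL 1 2)
    rw [lie_e (by decide) (by decide) (by decide)] at h1
    have h2 := congrArg (fun z : L6 K => z.1 0 2) h1
    simp [eL_apply] at h2

end Pool.Agent.Lib.MP_d55432_al.SIX.H57
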