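import Pool.Agent.Lib.MP_d55432_al.SIX.Iface

/-!
# The spin isomorphism of so(6) with sl(4)
-/

namespace Pool.Agent.Lib.MP_d55432_al.SIX.H57

open Matrix LieAlgebra

attribute [local instance 100] LieRing.ofAssociativeRing

section theta

variable {K : Type*} [Field K]

/-- the matrix of linear forms -/
def Tm (I : K) (x : M6 K) : M4 K :=
    !![(-(I * x 0 1) - I * x 2 3 - I * x 4 5) / 2,
      (-(x 2 4) - I * x 2 5 - I * x 3 4 + x 3 5) / 2,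
      (-(x 0 4) - I * x 0 5 - I * x 1 4 + x 1 5) / 2,
      (-(x 0 2) - I * x 0 3 - I * x 1 2 + x 1 3) / 2;
      (x 2 4 - I * x 2 5 - I * x 3 4 - x 3 5) / 2,
      (-(I * x 0 1) + I * x 2 3 + I * x 4 5) / 2,
      (-(x 0 2) + I * x 0 3 - I * x 1 2 - x 1 3) / 2,
      (x 0 4 - I * x 0 5 + I * x 1 4 + x 1 5) / 2;
      (x 0 4 - I * x 0 5 - I * x 1 4 - x 1 5) / 2,
      (x 0 2 + I * x 0 3 - I * x 1 2 + x 1 3) / 2,
      (I * x 0 1 - I * x 2 3 + I * x 4 5) / 2,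
      (-(x 2 4) + I * x 2 5 - I * x 3 4 - x 3 5) / 2;
      (x 0 2 - I * x 0 3 - I * x 1 2 - x 1 3) / 2,
      (-(x 0 4) - I * x 0 5 + I * x 1 4 - x 1 5) / 2,
      (x 2 4 + I * x 2 5 - I * x 3 4 + x 3 5) / 2,
      (I * x 0 1 + I * x 2 3 - I * x 4 5) / 2]

/-- the entries of the inverse above the diagonal -/
def U (I : K) (X : M4 K) : M6 K :=
    !![0, -I * ((-(2 * X 0 0) - 2 * X 1 1) / 2), (-(X 0 3) - X 1 2 + X 2 1 + X 3 0) / 2, -I * ((-(X 0 3) + X 1 2 + X 2 1 - X 3 0) / 2), (-(X 0 2) + X 1 3 + X 2 0 - X 3 1) / 2, -I * ((-(X 0 2) - X 1 3 - X 2 0 - X 3 1) / 2);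
      0, 0, -I * ((-(X 0 3) - X 1 2 - X 2 1 - X 3 0) / 2), -((-(X 0 3) + X 1 2 - X 2 1 + X 3 0) / 2), -I * ((-(X 0 2) + X 1 3 - X 2 0 + X 3 1) / 2), -((-(X 0 2) - X 1 3 + X 2 0 + X 3 1) / 2);
      0, 0, 0, -I * ((X 1 1 - X 0 0 - X 2 2 + X 3 3) / 2), (-(X 0 1) + X 1 0 - X 2 3 + X 3 2) / 2, -I * ((-(X 0 1) - X 1 0 + X 2 3 + X 3 2) / 2);
      0, 0, 0, 0, -I * ((-(X 0 1) - X 1 0 - X 2 3 - X 3 2) / 2), -((-(X 0 1) + X 1 0 + X 2 3 - X 3 2) / 2);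
      0, 0, 0, 0, 0, -I * ((X 1 1 - X 0 0 + X 2 2 - X 3 3) / 2);
      0, 0, 0, 0, 0, 0]

/-- the inverse -/
def Ti (I : K) (X : M4 K) : M6 K :=
  Matrix.of fun i j => if i < j then U I X i j else if j < i then -U I X j i else 0


theorem U_eq (I : K) (X : M4 K) (i j : Fin 6) (h : i < j) : Ti I X i j = U I X i j := by
  simp only [Ti, Matrix.of_apply, if_pos h]

theorem ext6 [CharZero K] {x y : M6 K} (hx : ∀ i j, x j i = -x i j) (hy : ∀ i j, y j i = -y i j)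
    (h : ∀ i j, i < j → x i j = y i j) : x = y := by
  ext i j
  rcases lt_trichotomy i j with hij | hij | hij
  · exact h i j hij
  · subst hij
    have h1 : ∀ z : M6 K, (∀ i j, z j i = -z i j) → z i i = 0 := fun z hz => by
      have h2 := hz i i
      have h3 : (2 : K) * z i i = 0 := by linear_combination h2
      exact (mul_eq_zero.1 h3).resolve_left two_ne_zero
    rw [h1 x hx, h1 y hy]
  · rw [hx j i, hy j i, h j i hij]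

theorem skew_of_mem (x : L6 K) (i j : Fin 6) : x.1 j i = -x.1 i j := by
  have h := (LieAlgebra.Orthogonal.mem_so _ _ _).1 x.2
  exact congrFun (congrFun h i) j

theorem diag_of_skew [CharZero K] {x : M6 K} (hx : ∀ i j, x j i = -x i j) (i : Fin 6) :
    x i i = 0 := by
  have h3 : (2 : K) * x i i = 0 := by linear_combination hx i i
  exact (mul_eq_zero.1 h3).resolve_left two_ne_zero

theorem Ti_skew (I : K) (X : M4 K) (i j : Fin 6) : Ti I X j i = -Ti I X i j := by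
  simp only [Ti, Matrix.of_apply]
  rcases lt_trichotomy i j with h | h | h
  · rw [if_neg (not_lt.2 h.le), if_pos h, if_pos h]
  · subst h; simp
  · rw [if_pos h, if_neg (not_lt.2 h.le), if_pos h, neg_neg]


theorem Tm_Ti [CharZero K] {I : K} (hI : I * I + 1 = 0) (X : M4 K)
    (ht : X 0 0 + X 1 1 + X 2 2 + X 3 3 = 0) : Tm I (Ti I X) = X := by
  have h2 : (2 : K) ≠ 0 := two_ne_zero
  ext i j
  rw [Tm]
  simp only [U_eq I X 0 1 (by decide),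
    U_eq I X 0 2 (by decide),
    U_eq I X 0 3 (by decide),
    U_eq I X 0 4 (by decide),
    U_eq I X 0 5 (by decide),
    U_eq I X 1 2 (by decide),
    U_eq I X 1 3 (by decide),
    U_eq I X 1 4 (by decide),
    U_eq I X 1 5 (by decide),
    U_eq I X 2 3 (by decide),
    U_eq I X 2 4 (by decide),
    U_eq I X 2 5 (by decide),
    U_eq I X 3 4 (by decide),
    U_eq I X 3 5 (by decide),
    U_eq I X 4 5 (by decide)]
  fin_cases i <;> fin_cases j <;> simp only [U]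
  · simp
    linear_combination (-X 0 0) * hI
  · simp
    linear_combination (-1 / 2 * X 0 1 - 1 / 2 * X 1 0) * hI
  · simp
    linear_combination (-1 / 2 * X 0 2 - 1 / 2 * X 2 0) * hI
  · simp
    linear_combination (-1 / 2 * X 0 3 - 1 / 2 * X 3 0) * hI
  · simp
    linear_combination (-1 / 2 * X 0 1 - 1 / 2 * X 1 0) * hI
  · simp
    linear_combination (-X 1 1) * hI
  · simp
    linear_combination (-1 / 2 * X 1 2 - 1 / 2 * X 2 1) * hI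
  · simp
    linear_combination (-1 / 2 * X 1 3 - 1 / 2 * X 3 1) * hI
  · simp
    linear_combination (-1 / 2 * X 0 2 - 1 / 2 * X 2 0) * hI
  · simp
    linear_combination (-1 / 2 * X 1 2 - 1 / 2 * X 2 1) * hI
  · simp
    linear_combination (1 / 2 * X 0 0 + 1 / 2 * X 1 1 - 1 / 2 * X 2 2 + 1 / 2 * X 3 3) * hI + (-1/2) * ht
  · simp
    linear_combination (-1 / 2 * X 2 3 - 1 / 2 * X 3 2) * hI
  · simp
    linear_combination (-1 / 2 * X 0 3 - 1 / 2 * X 3 0) * hI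
  · simp
    linear_combination (-1 / 2 * X 1 3 - 1 / 2 * X 3 1) * hI
  · simp
    linear_combination (-1 / 2 * X 2 3 - 1 / 2 * X 3 2) * hI
  · simp
    linear_combination (1 / 2 * X 0 0 + 1 / 2 * X 1 1 + 1 / 2 * X 2 2 - 1 / 2 * X 3 3) * hI + (-1/2) * ht


theorem Ti_Tm [CharZero K] {I : K} (hI : I * I + 1 = 0) (x : M6 K) (hx : ∀ i j, x j i = -x i j) :
    Ti I (Tm I x) = x := by
  refine ext6 (fun i j => Ti_skew I _ i j) hx fun i j hij => ?_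
  rw [U_eq I _ i j hij]
  fin_cases i <;> fin_cases j <;> first | exact absurd hij (by decide) | skip
  · simp [U, Tm]
    linear_combination (-x 0 1) * hI
  · simp [U, Tm]
    linear_combination (0) * hI
  · simp [U, Tm]
    linear_combination (-x 0 3) * hI
  · simp [U, Tm]
    linear_combination (0) * hI
  · simp [U, Tm]
    linear_combination (-x 0 5) * hI
  · simp [U, Tm]
    linear_combination (-x 1 2) * hI
  · simp [U, Tm]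
    linear_combination (0) * hI
  · simp [U, Tm]
    linear_combination (-x 1 4) * hI
  · simp [U, Tm]
    linear_combination (0) * hI
  · simp [U, Tm]
    linear_combination (-x 2 3) * hI
  · simp [U, Tm]
    linear_combination (0) * hI
  · simp [U, Tm]
    linear_combination (-x 2 5) * hI
  · simp [U, Tm]
    linear_combination (-x 3 4) * hI
  · simp [U, Tm]
    linear_combination (0) * hI
  · simp [U, Tm]
    linear_combination (-x 4 5) * hI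

theorem trace_Tm [CharZero K] (I : K) (x : M6 K) : (Tm I x).trace = 0 := by
  rw [Matrix.trace, Fin.sum_univ_four]
  simp [Tm, Matrix.diag]
  ring

theorem Tm_add (I : K) (x y : M6 K) : Tm I (x + y) = Tm I x + Tm I y := by
  ext i j
  fin_cases i <;> fin_cases j <;> simp [Tm] <;> ring

theorem Tm_smul (I c : K) (x : M6 K) : Tm I (c • x) = c • Tm I x := by
  ext i j
  fin_cases i <;> fin_cases j <;> simp [Tm] <;> ring

theorem Tm_lie [CharZero K] {I : K} (hI : I * I + 1 = 0) (x y : M6 K)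
    (hx : ∀ i j, x j i = -x i j) (hy : ∀ i j, y j i = -y i j) :
    Tm I (x * y - y * x) = Tm I x * Tm I y - Tm I y * Tm I x := by
  have hx0 := diag_of_skew hx
  have hy0 := diag_of_skew hy
  ext i j
  rw [Matrix.sub_apply, Matrix.mul_apply, Matrix.mul_apply, Fin.sum_univ_four, Fin.sum_univ_four,
    Tm]
  simp only [Matrix.sub_apply, Matrix.mul_apply, Fin.sum_univ_six, hx0, hy0,
    hx 0 1, hx 0 2, hx 1 2, hx 0 3, hx 1 3, hx 2 3, hx 0 4, hx 1 4, hx 2 4, hx 3 4, hx 1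
    5, hx 2 5, hx 3 5, hx 4 5,
    hy 0 1, hy 0 2, hy 1 2, hy 0 3, hy 1 3, hy 2 3, hy 0 4, hy 1 4, hy 2 4, hy 3 4, hy 1
    5, hy 2 5, hy 3 5, hy 4 5]
  fin_cases i <;> fin_cases j
  · simp [Tm]
    linear_combination (0) * hI
  · simp [Tm]
    linear_combination (-1 / 2 * x 0 3 * y 0 5 + 1 / 2 * x 0 5 * y 0 3 + 1 / 2 * x 1 2 * y 1 4 - 1 / 2 * x 1 4 * y
      1 2 - 1 / 2 * x 2 3 * y 2 5 - 1 / 2 * x 2 3 * y 3 4 + 1 / 2 * x 2 5 * y 2 3 + 1 / 2 * x 2 5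
      * y 4 5 + 1 / 2 * x 3 4 * y 2 3 + 1 / 2 * x 3 4 * y 4 5 - 1 / 2 * x 4 5 * y 2 5 - 1 / 2 * x
      4 5 * y 3 4) * hI
  · simp [Tm]
    linear_combination (-1 / 2 * x 0 1 * y 0 5 - 1 / 2 * x 0 1 * y 1 4 - 1 / 2 * x 0 3 * y 3 4 + 1 / 2 * x 0 5 * y
      0 1 + 1 / 2 * x 0 5 * y 4 5 + 1 / 2 * x 1 2 * y 2 5 + 1 / 2 * x 1 4 * y 0 1 + 1 / 2 * x 1 4
      * y 4 5 - 1 / 2 * x 2 5 * y 1 2 + 1 / 2 * x 3 4 * y 0 3 - 1 / 2 * x 4 5 * y 0 5 - 1 / 2 * x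
      4 5 * y 1 4) * hI
  · simp [Tm]
    linear_combination (-1 / 2 * x 0 1 * y 0 3 - 1 / 2 * x 0 1 * y 1 2 + 1 / 2 * x 0 3 * y 0 1 + 1 / 2 * x 0 3 * y
      2 3 + 1 / 2 * x 0 5 * y 2 5 + 1 / 2 * x 1 2 * y 0 1 + 1 / 2 * x 1 2 * y 2 3 - 1 / 2 * x 1 4
      * y 3 4 - 1 / 2 * x 2 3 * y 0 3 - 1 / 2 * x 2 3 * y 1 2 - 1 / 2 * x 2 5 * y 0 5 + 1 / 2 * x
      3 4 * y 1 4) * hI
  · simp [Tm]
    linear_combination (1 / 2 * x 0 3 * y 0 5 - 1 / 2 * x 0 5 * y 0 3 - 1 / 2 * x 1 2 * y 1 4 + 1 / 2 * x 1 4 * y 1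
      2 + 1 / 2 * x 2 3 * y 2 5 + 1 / 2 * x 2 3 * y 3 4 - 1 / 2 * x 2 5 * y 2 3 - 1 / 2 * x 2 5 *
      y 4 5 - 1 / 2 * x 3 4 * y 2 3 - 1 / 2 * x 3 4 * y 4 5 + 1 / 2 * x 4 5 * y 2 5 + 1 / 2 * x 4
      5 * y 3 4) * hI
  · simp [Tm]
    linear_combination (0) * hI
  · simp [Tm]
    linear_combination (1 / 2 * x 0 1 * y 0 3 - 1 / 2 * x 0 1 * y 1 2 - 1 / 2 * x 0 3 * y 0 1 + 1 / 2 * x 0 3 * y 2
      3 + 1 / 2 * x 0 5 * y 2 5 + 1 / 2 * x 1 2 * y 0 1 - 1 / 2 * x 1 2 * y 2 3 + 1 / 2 * x 1 4 *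
      y 3 4 - 1 / 2 * x 2 3 * y 0 3 + 1 / 2 * x 2 3 * y 1 2 - 1 / 2 * x 2 5 * y 0 5 - 1 / 2 * x 3
      4 * y 1 4) * hI
  · simp [Tm]
    linear_combination (-1 / 2 * x 0 1 * y 0 5 + 1 / 2 * x 0 1 * y 1 4 + 1 / 2 * x 0 3 * y 3 4 + 1 / 2 * x 0 5 * y
      0 1 - 1 / 2 * x 0 5 * y 4 5 + 1 / 2 * x 1 2 * y 2 5 - 1 / 2 * x 1 4 * y 0 1 + 1 / 2 * x 1 4
      * y 4 5 - 1 / 2 * x 2 5 * y 1 2 - 1 / 2 * x 3 4 * y 0 3 + 1 / 2 * x 4 5 * y 0 5 - 1 / 2 * x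
      4 5 * y 1 4) * hI
  · simp [Tm]
    linear_combination (1 / 2 * x 0 1 * y 0 5 + 1 / 2 * x 0 1 * y 1 4 + 1 / 2 * x 0 3 * y 3 4 - 1 / 2 * x 0 5 * y 0
      1 - 1 / 2 * x 0 5 * y 4 5 - 1 / 2 * x 1 2 * y 2 5 - 1 / 2 * x 1 4 * y 0 1 - 1 / 2 * x 1 4 *
      y 4 5 + 1 / 2 * x 2 5 * y 1 2 - 1 / 2 * x 3 4 * y 0 3 + 1 / 2 * x 4 5 * y 0 5 + 1 / 2 * x 4
      5 * y 1 4) * hI
  · simp [Tm]
    linear_combination (-1 / 2 * x 0 1 * y 0 3 + 1 / 2 * x 0 1 * y 1 2 + 1 / 2 * x 0 3 * y 0 1 - 1 / 2 * x 0 3 * y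
      2 3 - 1 / 2 * x 0 5 * y 2 5 - 1 / 2 * x 1 2 * y 0 1 + 1 / 2 * x 1 2 * y 2 3 - 1 / 2 * x 1 4
      * y 3 4 + 1 / 2 * x 2 3 * y 0 3 - 1 / 2 * x 2 3 * y 1 2 + 1 / 2 * x 2 5 * y 0 5 + 1 / 2 * x
      3 4 * y 1 4) * hI
  · simp [Tm]
    linear_combination (0) * hI
  · simp [Tm]
    linear_combination (1 / 2 * x 0 3 * y 0 5 - 1 / 2 * x 0 5 * y 0 3 + 1 / 2 * x 1 2 * y 1 4 - 1 / 2 * x 1 4 * y 1
      2 + 1 / 2 * x 2 3 * y 2 5 - 1 / 2 * x 2 3 * y 3 4 - 1 / 2 * x 2 5 * y 2 3 + 1 / 2 * x 2 5 *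
      y 4 5 + 1 / 2 * x 3 4 * y 2 3 - 1 / 2 * x 3 4 * y 4 5 - 1 / 2 * x 4 5 * y 2 5 + 1 / 2 * x 4
      5 * y 3 4) * hI
  · simp [Tm]
    linear_combination (1 / 2 * x 0 1 * y 0 3 + 1 / 2 * x 0 1 * y 1 2 - 1 / 2 * x 0 3 * y 0 1 - 1 / 2 * x 0 3 * y 2
      3 - 1 / 2 * x 0 5 * y 2 5 - 1 / 2 * x 1 2 * y 0 1 - 1 / 2 * x 1 2 * y 2 3 + 1 / 2 * x 1 4 *
      y 3 4 + 1 / 2 * x 2 3 * y 0 3 + 1 / 2 * x 2 3 * y 1 2 + 1 / 2 * x 2 5 * y 0 5 - 1 / 2 * x 3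
      4 * y 1 4) * hI
  · simp [Tm]
    linear_combination (1 / 2 * x 0 1 * y 0 5 - 1 / 2 * x 0 1 * y 1 4 - 1 / 2 * x 0 3 * y 3 4 - 1 / 2 * x 0 5 * y 0
      1 + 1 / 2 * x 0 5 * y 4 5 - 1 / 2 * x 1 2 * y 2 5 + 1 / 2 * x 1 4 * y 0 1 - 1 / 2 * x 1 4 *
      y 4 5 + 1 / 2 * x 2 5 * y 1 2 + 1 / 2 * x 3 4 * y 0 3 - 1 / 2 * x 4 5 * y 0 5 + 1 / 2 * x 4
      5 * y 1 4) * hI
  · simp [Tm]
    linear_combination (-1 / 2 * x 0 3 * y 0 5 + 1 / 2 * x 0 5 * y 0 3 - 1 / 2 * x 1 2 * y 1 4 + 1 / 2 * x 1 4 * y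
      1 2 - 1 / 2 * x 2 3 * y 2 5 + 1 / 2 * x 2 3 * y 3 4 + 1 / 2 * x 2 5 * y 2 3 - 1 / 2 * x 2 5
      * y 4 5 - 1 / 2 * x 3 4 * y 2 3 + 1 / 2 * x 3 4 * y 4 5 + 1 / 2 * x 4 5 * y 2 5 - 1 / 2 * x
      4 5 * y 3 4) * hI
  · simp [Tm]
    linear_combination (0) * hI


theorem Tm_sq [CharZero K] {I : K} (hI : I * I + 1 = 0) (x : M6 K) :
    Tm I x * Tm I x = (-(s1 x) / 4) • (1 : M4 K) + (-I) • Tm I (sharpM x) := by
  ext i j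
  rw [Matrix.add_apply, Matrix.smul_apply, Matrix.smul_apply, Matrix.mul_apply,
    Fin.sum_univ_four]
  fin_cases i <;> fin_cases j
  · simp [Tm, s1, sharpM, pf4]
    linear_combination (1 / 4 * x 0 1 * x 0 1 + 1 / 2 * x 0 2 * x 1 3 + 1 / 4 * x 0 3 * x 0 3 + 1 / 2 * x 0 4 * x 1
      5 + 1 / 4 * x 0 5 * x 0 5 + 1 / 4 * x 1 2 * x 1 2 + 1 / 4 * x 1 4 * x 1 4 + 1 / 4 * x 2 3 *
      x 2 3 + 1 / 2 * x 2 4 * x 3 5 + 1 / 4 * x 2 5 * x 2 5 + 1 / 4 * x 3 4 * x 3 4 + 1 / 4 * x 4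
      5 * x 4 5) * hI
  · simp [Tm, s1, sharpM, pf4]
    linear_combination (1 / 2 * x 0 2 * x 1 5 - 1 / 2 * x 0 4 * x 1 3) * hI
  · simp [Tm, s1, sharpM, pf4]
    linear_combination (-1 / 2 * x 0 2 * x 3 5 + 1 / 2 * x 1 3 * x 2 4) * hI
  · simp [Tm, s1, sharpM, pf4]
    linear_combination (1 / 2 * x 0 4 * x 3 5 - 1 / 2 * x 1 5 * x 2 4) * hI
  · simp [Tm, s1, sharpM, pf4]
    linear_combination (1 / 2 * x 0 2 * x 1 5 - 1 / 2 * x 0 4 * x 1 3) * hI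
  · simp [Tm, s1, sharpM, pf4]
    linear_combination (1 / 4 * x 0 1 * x 0 1 - 1 / 2 * x 0 2 * x 1 3 + 1 / 4 * x 0 3 * x 0 3 - 1 / 2 * x 0 4 * x 1
      5 + 1 / 4 * x 0 5 * x 0 5 + 1 / 4 * x 1 2 * x 1 2 + 1 / 4 * x 1 4 * x 1 4 + 1 / 4 * x 2 3 *
      x 2 3 + 1 / 2 * x 2 4 * x 3 5 + 1 / 4 * x 2 5 * x 2 5 + 1 / 4 * x 3 4 * x 3 4 + 1 / 4 * x 4
      5 * x 4 5) * hI
  · simp [Tm, s1, sharpM, pf4]
    linear_combination (1 / 2 * x 0 4 * x 3 5 + 1 / 2 * x 1 5 * x 2 4) * hI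
  · simp [Tm, s1, sharpM, pf4]
    linear_combination (1 / 2 * x 0 2 * x 3 5 + 1 / 2 * x 1 3 * x 2 4) * hI
  · simp [Tm, s1, sharpM, pf4]
    linear_combination (-1 / 2 * x 0 2 * x 3 5 + 1 / 2 * x 1 3 * x 2 4) * hI
  · simp [Tm, s1, sharpM, pf4]
    linear_combination (1 / 2 * x 0 4 * x 3 5 + 1 / 2 * x 1 5 * x 2 4) * hI
  · simp [Tm, s1, sharpM, pf4]
    linear_combination (1 / 4 * x 0 1 * x 0 1 - 1 / 2 * x 0 2 * x 1 3 + 1 / 4 * x 0 3 * x 0 3 + 1 / 2 * x 0 4 * x 1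
      5 + 1 / 4 * x 0 5 * x 0 5 + 1 / 4 * x 1 2 * x 1 2 + 1 / 4 * x 1 4 * x 1 4 + 1 / 4 * x 2 3 *
      x 2 3 - 1 / 2 * x 2 4 * x 3 5 + 1 / 4 * x 2 5 * x 2 5 + 1 / 4 * x 3 4 * x 3 4 + 1 / 4 * x 4
      5 * x 4 5) * hI
  · simp [Tm, s1, sharpM, pf4]
    linear_combination (1 / 2 * x 0 2 * x 1 5 + 1 / 2 * x 0 4 * x 1 3) * hI
  · simp [Tm, s1, sharpM, pf4]
    linear_combination (1 / 2 * x 0 4 * x 3 5 - 1 / 2 * x 1 5 * x 2 4) * hI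
  · simp [Tm, s1, sharpM, pf4]
    linear_combination (1 / 2 * x 0 2 * x 3 5 + 1 / 2 * x 1 3 * x 2 4) * hI
  · simp [Tm, s1, sharpM, pf4]
    linear_combination (1 / 2 * x 0 2 * x 1 5 + 1 / 2 * x 0 4 * x 1 3) * hI
  · simp [Tm, s1, sharpM, pf4]
    linear_combination (1 / 4 * x 0 1 * x 0 1 + 1 / 2 * x 0 2 * x 1 3 + 1 / 4 * x 0 3 * x 0 3 - 1 / 2 * x 0 4 * x 1
      5 + 1 / 4 * x 0 5 * x 0 5 + 1 / 4 * x 1 2 * x 1 2 + 1 / 4 * x 1 4 * x 1 4 + 1 / 4 * x 2 3 *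
      x 2 3 - 1 / 2 * x 2 4 * x 3 5 + 1 / 4 * x 2 5 * x 2 5 + 1 / 4 * x 3 4 * x 3 4 + 1 / 4 * x 4
      5 * x 4 5) * hI

/-- The spin isomorphism. -/
noncomputable def Th [CharZero K] {I : K} (hI : I * I + 1 = 0) : L6 K ≃ₗ⁅K⁆ L4 K where
  toFun x := mk4 (Tm I x.1) (trace_Tm I x.1)
  map_add' x y := Subtype.ext (Tm_add I x.1 y.1)
  map_smul' c x := Subtype.ext (Tm_smul I c x.1)
  map_lie' := by
    intro x y
    exact Subtype.ext (Tm_lie hI x.1 y.1 (skew_of_mem x) (skew_of_mem y))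
  invFun X := ⟨Ti I X.1, (LieAlgebra.Orthogonal.mem_so _ _ _).2 (by
    ext i j
    exact Ti_skew I X.1 i j)⟩
  left_inv x := Subtype.ext (Ti_Tm hI x.1 (skew_of_mem x))
  right_inv X := Subtype.ext (Tm_Ti hI X.1 (by
    have h := (mem_sl X.1).1 X.2
    rw [Matrix.trace, Fin.sum_univ_four] at h
    exact h))

end theta

/-- THETA -/
theorem theta (K : Type*) [Field K] [IsAlgClosed K] [CharZero K] : THETA_S K := by
  obtain ⟨I, hI⟩ := IsAlgClosed.exists_pow_nat_eq (-1 : K) (n := 2) (by norm_num)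
  have hI' : I * I + 1 = 0 := by linear_combination hI
  refine ⟨Th hI', -I, ?_, fun x => Tm_sq hI' x.1⟩
  rw [neg_ne_zero]
  rintro rfl
  simp at hI'

end Pool.Agent.Lib.MP_d55432_al.SIX.H57
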